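import Mathlib
import Pool.Agent.Helper88.QT.St4

/-!
Project QT (stage 2 of QD), module TTH: the tube theorem at a point.
-/

set_option autoImplicit false

open MeasureTheory Matrix Set Topology Filter
open scoped ENNReal ComplexConjugate

namespace Pool.Agent.Helper95.QT

open Pool.Agent.Helper88.QT
open Pool.Agent.Helper86.QA (KD ActOn FDOn CF ab rX Pt up ga mb ch oo)
open Pool.Agent.Helper85.QT (Ann Cls Cof Mlt Fm th Bnd DTub EBal Crs cen pq gp Tg TT)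
open Pool.Agent.Helper68.QC (nq Bel InvB Intw)
open Pool.Agent.Helper35.PM

theorem ypow {m : ℝ} (hm : 0 ≤ m) (k : ℕ) : (m ^ (1 / 60 : ℝ)) ^ k = m ^ ((k : ℝ) / 60) := by
  rw [← Real.rpow_natCast, ← Real.rpow_mul hm]
  congr 1
  ring

/-- The numbers. -/
theorem numbers {CB CW m h : ℝ} (hCB : 1 ≤ CB) (hCW : 1 ≤ CW) (hm1 : 1 ≤ m)
    (hm : (2 * (CW * CB ^ 2)) ^ 6 ≤ m) (h1 : 1 ≤ h) (h2 : m ^ (-(1 / 10) : ℝ) ≤ 2 - h) :
    h < 2 ∧ ∃ η : ℝ, 0 < η ∧ η ≤ 1 / 2 ∧ h + 2 * η ≤ 2 ∧ CW * (CB / (2 - h)) ≤ m ∧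
      CW * (CB / (2 - h)) ^ 2 ≤ m * η ^ 3 ∧
      CW * (CB / (2 - h)) ^ 2 / m ^ 2 + 320 * CW * η ≤
        (1 + 320 * CW) * (CW * CB ^ 2) * m ^ (-(1 / 4) : ℝ) := by
  have hm0 : 0 < m := by linarith
  obtain ⟨y, hy⟩ : ∃ y : ℝ, y = m ^ (1 / 60 : ℝ) := ⟨_, rfl⟩
  have hy1 : 1 ≤ y := by
    rw [hy]
    exact Real.one_le_rpow hm1 (by norm_num)
  have hy0 : 0 < y := by linarith
  obtain ⟨K, hK⟩ : ∃ K : ℝ, K = CW * CB ^ 2 := ⟨_, rfl⟩
  have hCB2 : CB ≤ CB ^ 2 := by nlinarith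
  have hK1 : 1 ≤ K := by
    rw [hK]
    nlinarith
  have hKC : CW * CB ≤ K := by
    rw [hK]
    exact mul_le_mul_of_nonneg_left hCB2 (by linarith)
  have e60 : m = y ^ 60 := by
    rw [hy, ypow hm0.le]
    norm_num
  have e10 : m ^ (-(1 / 10) : ℝ) = (y ^ 6)⁻¹ := by
    rw [hy, ypow hm0.le, ← Real.rpow_neg hm0.le]
    congr 1
    norm_num
  have e4 : m ^ (-(1 / 4) : ℝ) = (y ^ 15)⁻¹ := by
    rw [hy, ypow hm0.le, ← Real.rpow_neg hm0.le]
    congr 1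
    norm_num
  have h2K : 2 * K ≤ y ^ 10 := by
    rw [← hK] at hm
    have h3 : (2 * K) ^ 6 ≤ (y ^ 10) ^ 6 := by
      rw [← pow_mul]
      norm_num
      rw [← e60]
      exact hm
    exact le_of_pow_le_pow_left₀ (by norm_num) (by positivity) h3
  have y6 : 0 < y ^ 6 := by positivity
  have y16 : 0 < y ^ 16 := by positivity
  rw [e10] at h2
  have h2' : 0 < 2 - h := lt_of_lt_of_le (by positivity) h2
  have hbb : CB / (2 - h) ≤ CB * y ^ 6 := by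
    rw [div_le_iff₀ h2']
    have h3 : 1 ≤ y ^ 6 * (2 - h) := by
      have := mul_le_mul_of_nonneg_left h2 y6.le
      rwa [mul_inv_cancel₀ y6.ne'] at this
    nlinarith
  have hbb0 : 0 < CB / (2 - h) := by positivity
  refine ⟨by linarith, K * (y ^ 16)⁻¹, by positivity, ?_, ?_, ?_, ?_, ?_⟩
  · -- `η ≤ 1/2`
    rw [← div_eq_mul_inv, div_le_iff₀ y16]
    have h3 : y ^ 10 ≤ y ^ 16 := pow_le_pow_right₀ hy1 (by norm_num)
    linarith
  · have h3 : 2 * (K * (y ^ 16)⁻¹) ≤ (y ^ 6)⁻¹ := by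
      rw [← mul_assoc, ← div_eq_mul_inv, div_le_iff₀ y16]
      have h4 : (y ^ 6)⁻¹ * y ^ 16 = y ^ 10 := by
        have : y ^ 16 = y ^ 6 * y ^ 10 := by ring
        rw [this, inv_mul_cancel_left₀ y6.ne']
      rw [h4]
      exact h2K
    linarith
  · calc CW * (CB / (2 - h)) ≤ CW * (CB * y ^ 6) := mul_le_mul_of_nonneg_left hbb (by linarith)
      _ = CW * CB * y ^ 6 := by ring
      _ ≤ y ^ 10 * y ^ 6 := mul_le_mul_of_nonneg_right (by linarith) y6.le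
      _ = y ^ 16 := by ring
      _ ≤ y ^ 60 := pow_le_pow_right₀ hy1 (by norm_num)
      _ = m := e60.symm
  · have h3 : m * (K * (y ^ 16)⁻¹) ^ 3 = K ^ 3 * y ^ 12 := by
      rw [e60]
      have : y ^ 60 = (y ^ 16) ^ 3 * y ^ 12 := by ring
      rw [this, mul_pow, inv_pow]
      have h4 : ((y ^ 16) ^ 3) ≠ 0 := by positivity
      field_simp
    rw [h3]
    calc CW * (CB / (2 - h)) ^ 2 ≤ CW * (CB * y ^ 6) ^ 2 :=
          mul_le_mul_of_nonneg_left (pow_le_pow_left₀ hbb0.le hbb 2) (by linarith)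
      _ = K * y ^ 12 := by rw [hK]; ring
      _ ≤ K ^ 3 * y ^ 12 := by
          refine mul_le_mul_of_nonneg_right ?_ (by positivity)
          calc K = K ^ 1 := (pow_one K).symm
            _ ≤ K ^ 3 := pow_le_pow_right₀ hK1 (by norm_num)
  · -- the last inequality
    have h3 : CW * (CB / (2 - h)) ^ 2 / m ^ 2 ≤ K * (y ^ 16)⁻¹ := by
      rw [div_le_iff₀ (by positivity)]
      calc CW * (CB / (2 - h)) ^ 2 ≤ CW * (CB * y ^ 6) ^ 2 :=
            mul_le_mul_of_nonneg_left (pow_le_pow_left₀ hbb0.le hbb 2) (by linarith)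
        _ = K * y ^ 12 := by rw [hK]; ring
        _ ≤ K * y ^ 104 := by
            refine mul_le_mul_of_nonneg_left ?_ (by linarith)
            exact pow_le_pow_right₀ hy1 (by norm_num)
        _ = K * (y ^ 16)⁻¹ * m ^ 2 := by
            rw [e60]
            field_simp
    rw [e4, ← hK]
    have h5 : (y ^ 16)⁻¹ ≤ (y ^ 15)⁻¹ :=
      inv_anti₀ (by positivity) (pow_le_pow_right₀ hy1 (by norm_num))
    calc CW * (CB / (2 - h)) ^ 2 / m ^ 2 + 320 * CW * (K * (y ^ 16)⁻¹)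
        ≤ K * (y ^ 16)⁻¹ + 320 * CW * (K * (y ^ 16)⁻¹) := by linarith
      _ = (1 + 320 * CW) * K * (y ^ 16)⁻¹ := by ring
      _ ≤ (1 + 320 * CW) * K * (y ^ 15)⁻¹ :=
          mul_le_mul_of_nonneg_left h5 (by positivity)

/-- MODULE TTH. -/
theorem hTTH (hHS2 : Pool.Agent.Helper35.PM.St_HS2) (hBDX : Pool.Agent.Helper88.QT.StBDX)
    (hWGT : Pool.Agent.Helper88.QT.StWGT) (hCNT : Pool.Agent.Helper88.QT.StCNT)
    (hCYC : Pool.Agent.Helper88.QT.StCYC) : Pool.Agent.Helper88.QT.StTTH := by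
  intro C3 a0 hC3 ha0
  obtain ⟨CB, m₁, hCB, hm₁, hB⟩ := hBDX a0 ha0
  obtain ⟨CW, hCW, hW⟩ := hWGT C3 hC3
  refine ⟨max m₁ ((2 * (CW * CB ^ 2)) ^ 6), (1 + 320 * CW) * (CW * CB ^ 2),
    le_trans hm₁ (le_max_left _ _), by positivity, ?_⟩
  intro Γ _ f α m r A B lam M G φ μ μ0 hP hm hdif hfac hQF
  have hmm₁ : m₁ ≤ m := le_trans (le_max_left _ _) hm
  have hmK : (2 * (CW * CB ^ 2)) ^ 6 ≤ m := le_trans (le_max_right _ _) hm
  have hm1 : 1 ≤ m := le_trans hm₁ hmm₁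
  obtain ⟨b1, b2, b3, b4, b5, b6⟩ := hB Γ f α m C3 r A B lam M G φ μ μ0 hP hmm₁ hQF
  refine ⟨b5, ?_⟩
  intro hent
  obtain ⟨n0, η, n1, n2, n3, n4, n5, n6⟩ := numbers hCB hCW hm1 hmK b5 hent
  have hBnd := b6 n0
  have h0 : (0 : ℂ) ∈ Metric.ball (0 : ℂ) 1 := Metric.mem_ball_self one_pos
  have hF0 := hfac 0 h0
  -- the length of `α` is positive
  have htl : 0 < tl (f 0 α) := by
    rcases (hHS2.2.2.1 (f 0 α)).1.lt_or_eq with h | h
    · exact h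
    · exfalso
      obtain ⟨n, hn1, hn2⟩ := (hF0.2.2.2.2.2.1 α).1 h.symm
      have hα : α = 1 := hP.an.kd.tf α n hn1 hn2
      have hmu := hP.an.mu
      rw [hα, map_one] at hmu
      simp only [Matrix.SpecialLinearGroup.coe_one, Matrix.one_apply_eq, mul_one] at hmu
      have hn : ‖Complex.exp lam‖ = 1 := by rw [← hmu]; simp
      rw [Complex.norm_exp, Real.exp_eq_one_iff] at hn
      exact absurd hn hP.an.re.ne'
  obtain ⟨C1, hC1⟩ := hCYC Γ (f 0) α htl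
  obtain ⟨W, C2, w1, w2⟩ := hW Γ f α m a0 r A B lam M G φ μ μ0 (CB / (2 - ent (f 0))) hP hdif hfac
    hQF b1 b2 b3 b4 hBnd n4 (ent (f 0) + 2 * η) (ent (f 0) + η) (by linarith) (by linarith)
    (by linarith) (by linarith) (by
      have : ent (f 0) + 2 * η - (ent (f 0) + η) = η := by ring
      rw [this]
      exact n5)
  obtain ⟨C', hC'⟩ := hCNT Γ f {x | ∃ n : ℤ, x = ConjClasses.mk (α ^ n)} W
    (CW * (CB / (2 - ent (f 0))) ^ 2 / m ^ 2) CW (1 / 80) (ent (f 0) + 2 * η) (ent (f 0)) η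
    ((1 + 320 * CW) * (CW * CB ^ 2) * m ^ (-(1 / 4) : ℝ)) C1 C2 hF0.1 (by norm_num) (by linarith)
    (by positivity) (by linarith) n1 (by linarith) (by
      have : CW * (ent (f 0) + 2 * η - ent (f 0) + 2 * η) / (1 / 80) = 320 * CW * η := by ring
      rw [this]
      exact n6) hC1 (by
      intro x hx
      exact w1 x (fun n hn => hx ⟨n, hn⟩)) (by
      intro S hS
      exact w2 S (fun x hx n hn => hS x hx ⟨n, hn⟩))
  exact ⟨η, n1, C', hC'⟩

end Pool.Agent.Helper95.QT
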