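import Mathlib
import Pool.Agent.Helper88.QT.St2
import Pool.Agent.Helper85.QT.St1

/-!
Project QT (stage 2 of QD), module PRT: ports near the crossings.
-/

set_option autoImplicit false

open MeasureTheory Matrix Set Topology
open scoped ENNReal ComplexConjugate

namespace Pool.Agent.Helper95.QT

open Pool.Agent.Helper88.QT Pool.Agent.Helper85.QT Pool.Agent.Helper86.QA

theorem min_nine (q : ℝ) (_hq : 0 ≤ q) : min 1 (9 * q) ≤ 9 * min 1 q := by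
  rcases le_total 1 q with h | h
  · rw [min_eq_left h]
    exact le_trans (min_le_left _ _) (by norm_num)
  · rw [min_eq_right h]
    exact min_le_right _ _

/-- Comparison of weights. -/
theorem om_le {m D F v V : ℝ} (hm : 1 ≤ m) (hD : 0 ≤ D) (hF : 0 ≤ F) (hFD : F ≤ D + 2)
    (hv : v ≤ V + 1) (hv0 : 0 ≤ v) (hV : 0 ≤ V) :
    min 1 ((1 + F) ^ 2 / m ^ 2) * (1 + v) ≤ 18 * (min 1 ((1 + D) ^ 2 / m ^ 2) * (1 + V)) := by
  have hm2 : 0 < m ^ 2 := by positivity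
  have hq0 : 0 ≤ (1 + D) ^ 2 / m ^ 2 := by positivity
  have h1 : (1 + F) ^ 2 / m ^ 2 ≤ 9 * ((1 + D) ^ 2 / m ^ 2) := by
    have h2 : (1 + F) ^ 2 ≤ 9 * (1 + D) ^ 2 := by
      have h3 : 1 + F ≤ 3 * (1 + D) := by linarith
      have h4 : (1 + F) ^ 2 ≤ (3 * (1 + D)) ^ 2 := pow_le_pow_left₀ (by linarith) h3 2
      linarith
    calc (1 + F) ^ 2 / m ^ 2 ≤ (9 * (1 + D) ^ 2) / m ^ 2 :=
          div_le_div_of_nonneg_right h2 hm2.le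
      _ = 9 * ((1 + D) ^ 2 / m ^ 2) := by ring
  have h5 : min 1 ((1 + F) ^ 2 / m ^ 2) ≤ 9 * min 1 ((1 + D) ^ 2 / m ^ 2) :=
    le_trans (min_le_min_left 1 h1) (min_nine _ hq0)
  have h6 : 1 + v ≤ 2 * (1 + V) := by linarith
  have h7 : 0 ≤ min 1 ((1 + D) ^ 2 / m ^ 2) := le_min zero_le_one hq0
  calc min 1 ((1 + F) ^ 2 / m ^ 2) * (1 + v)
      ≤ (9 * min 1 ((1 + D) ^ 2 / m ^ 2)) * (2 * (1 + V)) :=
        mul_le_mul h5 h6 (by linarith) (by linarith)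
    _ = 18 * (min 1 ((1 + D) ^ 2 / m ^ 2) * (1 + V)) := by ring

/-- MODULE PRT. -/
theorem hPRT (hACT : Pool.Agent.Helper86.QA.StACT) (hCHI : Pool.Agent.Helper86.QA.StCHI)
    (hCHV : Pool.Agent.Helper86.QA.StCHV) (hSB3 : Pool.Agent.Helper85.QT.StSB3)
    (hFDM : Pool.Agent.Helper88.QT.StFDM) (hXPT : Pool.Agent.Helper88.QT.StXPT)
    (hCHF : Pool.Agent.Helper88.QT.StCHF) (hGPM : Pool.Agent.Helper88.QT.StGPM)
    (hINV : Pool.Agent.Helper88.QT.StINV) : Pool.Agent.Helper88.QT.StPRT := by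
  intro Γ _ ρ A B α lam M G m φ C3 hA hl k ξ hξ hcov a b s t i ha hb hab hra hrb hTs hTt hfs hft
  have hlam : lam ≠ 0 := by
    intro h
    have := hA.re
    rw [h] at this
    simp at this
  have hl0 : 0 < ‖lam‖ := norm_pos_iff.2 hlam
  have hcz : (2 * cz : ℝ) = 200 := by unfold cz; norm_num
  obtain ⟨f1, f2, f3, f4, f5, f6⟩ := hFDM lam hlam
  obtain ⟨x1, x2, x3, x4, x5⟩ := hXPT lam hlam
  obtain ⟨c1, c2⟩ := hCHF lam hlam
  obtain ⟨g1, g2, g3⟩ := hGPM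
  obtain ⟨i1, _, _⟩ := hINV Γ ρ A B α lam M G m φ C3 hA
  obtain ⟨s1, s2, s3⟩ := hSB3 Γ ρ A B hA.kd
  obtain ⟨g₀, hg₀⟩ : ∃ g₀ : Γ, g₀ = Quotient.out i := ⟨_, rfl⟩
  have hTs' : TT lam (ga (ρ g₀⁻¹) (gp a b s)) = 2 * cz := by rw [hg₀]; exact hTs
  have hTt' : TT lam (ga (ρ g₀⁻¹) (gp a b t)) = 2 * cz := by rw [hg₀]; exact hTt
  rw [← hg₀] at hfs hft
  have hmk : (QuotientGroup.mk g₀ : Li α) = i := by
    rw [hg₀]
    exact QuotientGroup.out_eq' i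
  have hoi : oi ρ α lam m i a b = om lam m (mb (ρ g₀⁻¹) a) (mb (ρ g₀⁻¹) b) := by
    rw [hg₀]
    rfl
  have hT0 : (0 : ℝ) < 2 * cz := by rw [hcz]; norm_num
  have hTl : 2 * cz * ‖lam‖ ≤ 1 / 16 := by
    rw [hcz]
    linarith
  -- action on products
  have hmul : ∀ (g h : Γ) (x : Pt), x ∈ up → ga (ρ (g * h)) x = ga (ρ g) (ga (ρ h) x) := by
    intro g h x hx
    rw [map_mul]
    exact hACT.2.1 _ _ x hx
  have hone : ∀ x : Pt, x ∈ up → ga (ρ (1 : Γ)) x = x := by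
    intro x hx
    rw [map_one]
    exact hACT.2.2.1 x hx
  have hup : ∀ (g : Γ) (x : Pt), x ∈ up → ga (ρ g) x ∈ up := fun g x hx => (hACT.1 _ x hx).2.1
  -- the port lemma
  have port : ∀ (n : ℤ) (p : Pt) (c₀ ξ₀ : ℂ), p ∈ up → TT lam (ga (ρ g₀⁻¹) p) = 2 * cz →
      c₀ ≠ 0 → ξ₀ ≠ 0 → fd lam (rd (ga (ρ g₀⁻¹) p)) c₀ ≤ 16 * cz →
      fd lam c₀ (Complex.exp (n * lam) * ξ₀) < 1 →
      ch (ga (ρ (g₀ * α ^ n)) (xp lam (2 * cz) ξ₀)) p ≤ 66 := by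
    intro n p c₀ ξ₀ hp hT hc₀ hξ₀ hf1 hf2
    obtain ⟨u1, u2, u3⟩ := x1 (2 * cz) ξ₀ hT0 (by linarith) hξ₀
    obtain ⟨u3, u4⟩ := u3 (by linarith)
    have hx0 := hup g₀⁻¹ p hp
    have hx0n : (ga (ρ g₀⁻¹) p).1 ≠ 0 := (x2 _ hx0).2.2.2.2 (by rw [hT]; linarith)
    have hrd0 : rd (ga (ρ g₀⁻¹) p) ≠ 0 := (x3 _ hx0 hx0n).1
    -- the diagonal element
    obtain ⟨d1, d2, d3⟩ := i1 (-n)
    obtain ⟨_, e2, e3, e4, _, _⟩ := x4 (ρ (α ^ (-n))) (ga (ρ g₀⁻¹) p) hx0 d1 d2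
    have hinv : (g₀ * α ^ n)⁻¹ = α ^ (-n) * g₀⁻¹ := by
      rw [_root_.mul_inv_rev, _root_.zpow_neg]
    have hpp : ga (ρ (g₀ * α ^ n)) (ga (ρ (α ^ (-n))) (ga (ρ g₀⁻¹) p)) = p := by
      rw [← hmul (α ^ (-n)) g₀⁻¹ p hp, ← hinv, ← hmul _ _ p hp, mul_inv_cancel, hone p hp]
    have hx1 := hup (α ^ (-n)) _ hx0
    have hch : ch (ga (ρ (g₀ * α ^ n)) (xp lam (2 * cz) ξ₀)) p =
        ch (xp lam (2 * cz) ξ₀) (ga (ρ (α ^ (-n))) (ga (ρ g₀⁻¹) p)) := by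
      conv_lhs => rw [← hpp]
      exact (hCHI.2.1 _ _ u1 _ hx1).1
    rw [hch]
    have hq : Complex.exp ((-n : ℤ) * lam) * Complex.exp (n * lam) = 1 := by
      rw [← Complex.exp_add]
      push_cast
      rw [show -(n : ℂ) * lam + n * lam = 0 by ring, Complex.exp_zero]
    have hqn : Complex.exp ((-n : ℤ) * lam) ≠ 0 := Complex.exp_ne_zero _
    have hqn' : Complex.exp (n * lam) ≠ 0 := Complex.exp_ne_zero _
    rw [d3] at e3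
    have hfd : fd lam (rd (xp lam (2 * cz) ξ₀)) (rd (ga (ρ (α ^ (-n))) (ga (ρ g₀⁻¹) p))) ≤
        1601 := by
      rw [u3, e3]
      have h1 : ξ₀ = Complex.exp ((-n : ℤ) * lam) * (Complex.exp (n * lam) * ξ₀) := by
        rw [← mul_assoc, hq, one_mul]
      have h2 : fd lam ξ₀ (Complex.exp ((-n : ℤ) * lam) * rd (ga (ρ g₀⁻¹) p)) =
          fd lam (Complex.exp (n * lam) * ξ₀) (rd (ga (ρ g₀⁻¹) p)) := by
        conv_lhs => rw [h1]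
        exact f3 _ _ _ hqn (mul_ne_zero hqn' hξ₀) hrd0
      rw [h2]
      have h3 := f2 (Complex.exp (n * lam) * ξ₀) c₀ (rd (ga (ρ g₀⁻¹) p))
        (mul_ne_zero hqn' hξ₀) hc₀ hrd0
      rw [(f1 (Complex.exp (n * lam) * ξ₀) c₀ (mul_ne_zero hqn' hξ₀) hc₀).1,
        (f1 c₀ (rd (ga (ρ g₀⁻¹) p)) hc₀ hrd0).1] at h3
      have h4 : (16 * cz : ℝ) = 1600 := by unfold cz; norm_num
      linarith
    have hfd0 : 0 ≤ fd lam (rd (xp lam (2 * cz) ξ₀))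
        (rd (ga (ρ (α ^ (-n))) (ga (ρ g₀⁻¹) p))) := by
      rw [u3, e3]
      exact (f1 _ _ hξ₀ (mul_ne_zero hqn hrd0)).2.1
    obtain ⟨_, k2, _⟩ := c2 (2 * cz) hT0 (by linarith) _ u1 _ hx1 u2 (by rw [e2]; exact hT)
    have h5 := k2 (by
      calc ‖lam‖ * fd lam (rd (xp lam (2 * cz) ξ₀))
            (rd (ga (ρ (α ^ (-n))) (ga (ρ g₀⁻¹) p))) ≤ 1 / 3200 * 1601 :=
            mul_le_mul hl hfd hfd0 (by norm_num)
        _ ≤ 1 := by norm_num)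
    refine le_trans h5 ?_
    rw [hcz]
    have h6 : fd lam (rd (xp lam 200 ξ₀)) (rd (ga (ρ (α ^ (-n))) (ga (ρ g₀⁻¹) p))) ^ 2 ≤
        1601 ^ 2 := by
      rw [hcz] at hfd hfd0
      exact pow_le_pow_left₀ hfd0 hfd 2
    have h7 : fd lam (rd (xp lam 200 ξ₀)) (rd (ga (ρ (α ^ (-n))) (ga (ρ g₀⁻¹) p))) ^ 2 /
        200 ^ 2 ≤ 1601 ^ 2 / 200 ^ 2 := div_le_div_of_nonneg_right h6 (by norm_num)
    have h8 : (1 : ℝ) + 1601 ^ 2 / 200 ^ 2 ≤ 66 := by norm_num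
    linarith
  -- the points `a₀`, `b₀`
  have hda := hra g₀⁻¹
  have hdb := hrb g₀⁻¹
  obtain ⟨a₀, ha₀⟩ : ∃ a₀ : ℂ, a₀ = mb (ρ g₀⁻¹) a := ⟨_, rfl⟩
  obtain ⟨b₀, hb₀⟩ : ∃ b₀ : ℂ, b₀ = mb (ρ g₀⁻¹) b := ⟨_, rfl⟩
  have ha₀L : a₀ ∈ LS A B := by rw [ha₀]; exact s2 g₀⁻¹ a ha hda.1
  have hb₀L : b₀ ∈ LS A B := by rw [hb₀]; exact s2 g₀⁻¹ b hb hdb.1
  have ha₀n : a₀ ≠ 0 := by rw [ha₀]; exact div_ne_zero hda.2 hda.1
  have hb₀n : b₀ ≠ 0 := by rw [hb₀]; exact div_ne_zero hdb.2 hdb.1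
  obtain ⟨y, n₀, hy⟩ := hcov b₀ hb₀L hb₀n
  obtain ⟨y', n', hy'⟩ := hcov a₀ ha₀L ha₀n
  rw [← hb₀] at hfs
  rw [← ha₀] at hft
  rw [hoi, ← ha₀, ← hb₀]
  have hgs := (g1 a b s 0 hab).1
  have hgt := (g1 a b t 0 hab).1
  have hpow : g₀ * α ^ n₀ * α ^ (n' - n₀) = g₀ * α ^ n' := by
    rw [mul_assoc, ← _root_.zpow_add]
    congr 2
    ring
  refine ⟨g₀ * α ^ n₀, y, y', n' - n₀, ?_, ?_, ?_, ?_, ?_, ?_⟩
  · rw [← hmk]
    exact QuotientGroup.mk_mul_of_mem g₀ (Subgroup.zpow_mem _ (Subgroup.mem_zpowers α) n₀)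
  · exact port n₀ _ b₀ (ξ y) hgs hTs' hb₀n (hξ y).2 hfs hy
  · rw [hpow]
    exact port n' _ a₀ (ξ y') hgt hTt' ha₀n (hξ y').2 hft hy'
  · obtain ⟨u1, _, _⟩ := x1 (2 * cz) (ξ y') hT0 (by linarith) (hξ y').2
    obtain ⟨d1, d2, d3⟩ := i1 (n' - n₀)
    obtain ⟨_, _, _, _, _, e6⟩ := x4 (ρ (α ^ (n' - n₀))) oo (by unfold up oo; simp) d1 d2
    rw [hmul _ _ _ u1, e6 (2 * cz) (ξ y') hT0 (by linarith) (hξ y').2, d3]
  · unfold om
    have h1 : 0 ≤ (1 + fd lam a₀ b₀) ^ 2 / m ^ 2 := by positivity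
    have h2 : 0 ≤ min 1 ((1 + fd lam a₀ b₀) ^ 2 / m ^ 2) := le_min zero_le_one h1
    exact mul_nonneg h2 (by positivity)
  · -- comparison of the weights
    have hq1 : Complex.exp (n₀ * lam) ≠ 0 := Complex.exp_ne_zero _
    have hq2 : Complex.exp (n' * lam) ≠ 0 := Complex.exp_ne_zero _
    have hq3 : Complex.exp ((n' - n₀ : ℤ) * lam) ≠ 0 := Complex.exp_ne_zero _
    have hq4 : Complex.exp (n' * lam) =
        Complex.exp (n₀ * lam) * Complex.exp ((n' - n₀ : ℤ) * lam) := by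
      rw [← Complex.exp_add]
      congr 1
      push_cast
      ring
    have hP : Complex.exp (n₀ * lam) * ξ y ≠ 0 := mul_ne_zero hq1 (hξ y).2
    have hP' : Complex.exp (n' * lam) * ξ y' ≠ 0 := mul_ne_zero hq2 (hξ y').2
    have hR : Complex.exp ((n' - n₀ : ℤ) * lam) * ξ y' ≠ 0 := mul_ne_zero hq3 (hξ y').2
    have hD1 : fd lam (ξ y) (Complex.exp ((n' - n₀ : ℤ) * lam) * ξ y') =
        fd lam (Complex.exp (n' * lam) * ξ y') (Complex.exp (n₀ * lam) * ξ y) := by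
      rw [(f1 _ _ hP' hP).1, hq4, mul_assoc]
      exact (f3 _ _ _ hq1 (hξ y).2 hR).symm
    have hD0 := (f1 _ _ hP' hP).2.1
    have hF0 := (f1 a₀ b₀ ha₀n hb₀n).2.1
    have hF : fd lam a₀ b₀ ≤
        fd lam (Complex.exp (n' * lam) * ξ y') (Complex.exp (n₀ * lam) * ξ y) + 2 := by
      have h1 := f2 a₀ (Complex.exp (n' * lam) * ξ y') b₀ ha₀n hP' hb₀n
      have h2 := f2 (Complex.exp (n' * lam) * ξ y') (Complex.exp (n₀ * lam) * ξ y) b₀ hP' hP hb₀n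
      rw [(f1 (Complex.exp (n₀ * lam) * ξ y) b₀ hP hb₀n).1] at h2
      linarith
    have nP := norm_pos_iff.2 hP
    have nP' := norm_pos_iff.2 hP'
    have na := norm_pos_iff.2 ha₀n
    have nb := norm_pos_iff.2 hb₀n
    have nR := norm_pos_iff.2 hR
    have ny := norm_pos_iff.2 (hξ y).2
    have nq := norm_pos_iff.2 hq1
    have hV1 : |Real.log (‖ξ y‖ / ‖Complex.exp ((n' - n₀ : ℤ) * lam) * ξ y'‖)| =
        |Real.log ‖Complex.exp (n' * lam) * ξ y'‖ - Real.log ‖Complex.exp (n₀ * lam) * ξ y‖| := by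
      rw [hq4, mul_assoc, norm_mul (Complex.exp (n₀ * lam)), norm_mul (Complex.exp (n₀ * lam)),
        Real.log_mul nq.ne' nR.ne', Real.log_mul nq.ne' ny.ne', Real.log_div ny.ne' nR.ne',
        abs_sub_comm]
      congr 1
      ring
    have hl1 : ‖lam‖ ≤ 1 / 2 := by linarith
    have hv1 : |Real.log ‖a₀‖ - Real.log ‖Complex.exp (n' * lam) * ξ y'‖| ≤ 1 / 2 := by
      have h1 := (f1 a₀ (Complex.exp (n' * lam) * ξ y') ha₀n hP').2.2.2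
      rw [Real.log_div na.ne' nP'.ne'] at h1
      have h0 := (f1 a₀ (Complex.exp (n' * lam) * ξ y') ha₀n hP').2.1
      calc _ ≤ _ := h1
        _ ≤ 1 / 2 * 1 := mul_le_mul hl1 hy'.le h0 (by norm_num)
        _ = 1 / 2 := by norm_num
    have hv2 : |Real.log ‖Complex.exp (n₀ * lam) * ξ y‖ - Real.log ‖b₀‖| ≤ 1 / 2 := by
      have h1 := (f1 b₀ (Complex.exp (n₀ * lam) * ξ y) hb₀n hP).2.2.2
      rw [Real.log_div nb.ne' nP.ne', abs_sub_comm] at h1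
      have h0 := (f1 b₀ (Complex.exp (n₀ * lam) * ξ y) hb₀n hP).2.1
      calc _ ≤ _ := h1
        _ ≤ 1 / 2 * 1 := mul_le_mul hl1 hy.le h0 (by norm_num)
        _ = 1 / 2 := by norm_num
    have hv : |Real.log (‖a₀‖ / ‖b₀‖)| ≤
        |Real.log (‖ξ y‖ / ‖Complex.exp ((n' - n₀ : ℤ) * lam) * ξ y'‖)| + 1 := by
      rw [hV1, Real.log_div na.ne' nb.ne']
      have h1 : Real.log ‖a₀‖ - Real.log ‖b₀‖ =
          (Real.log ‖a₀‖ - Real.log ‖Complex.exp (n' * lam) * ξ y'‖) +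
          (Real.log ‖Complex.exp (n' * lam) * ξ y'‖ - Real.log ‖Complex.exp (n₀ * lam) * ξ y‖) +
          (Real.log ‖Complex.exp (n₀ * lam) * ξ y‖ - Real.log ‖b₀‖) := by ring
      rw [h1]
      refine le_trans (abs_add_le _ _) ?_
      have h2 := abs_add_le (Real.log ‖a₀‖ - Real.log ‖Complex.exp (n' * lam) * ξ y'‖)
        (Real.log ‖Complex.exp (n' * lam) * ξ y'‖ - Real.log ‖Complex.exp (n₀ * lam) * ξ y‖)
      linarith
    have hmain := om_le (m := m) hA.m1 hD0 hF0 hF hv (abs_nonneg _) (abs_nonneg _)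
    unfold om
    rw [hD1]
    have hpos : 0 ≤ min 1 ((1 + fd lam (Complex.exp (n' * lam) * ξ y')
        (Complex.exp (n₀ * lam) * ξ y)) ^ 2 / m ^ 2) *
        (1 + |Real.log (‖ξ y‖ / ‖Complex.exp ((n' - n₀ : ℤ) * lam) * ξ y'‖)|) := by
      have h1 : 0 ≤ (1 + fd lam (Complex.exp (n' * lam) * ξ y')
        (Complex.exp (n₀ * lam) * ξ y)) ^ 2 / m ^ 2 := by positivity
      have h2 := le_min (zero_le_one (α := ℝ)) h1
      exact mul_nonneg h2 (by positivity)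
    linarith

end Pool.Agent.Helper95.QT
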